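import Pool.Agent.R427.TS8
import Pool.Agent.Results.MP_1bad5e_ag.ThreePrimes
import Pool.Agent.Results.MP_8ac872_ag.ThreeSplitFibres

/-!
# Elliptic curves of rank one over towers of constant and Kummer extensions

Let `E` be the curve `y ^ 2 + (p - q - r) x y + p q r y = x ^ 3` over `k(t)`, where `k` is a finite field
and `p`, `q`, `r` are three irreducible polynomials. We show that the rank and the order of vanishing of
the `L`-function stay one over all extensions `k'(s)` of `k(t)` with `c s ^ (l ^ j) = t`, where the degree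
of `k'` over `k` is prime to finitely many numbers.
-/

set_option autoImplicit false
set_option linter.all false
set_option maxHeartbeats 4000000

open Polynomial Pool.Agent.W343.BSD Pool.Agent.W313.Gr

namespace Pool.Agent.Results.MP_72e2e6_nt.ConstantExtensions

section defs

/-- The coefficient of `x` of the short form of `y ^ 2 + e x y + f y = x ^ 3`. -/
def coeffA {R : Type} [CommRing R] (e f : R) : R := -27 * (e ^ 4 - 24 * e * f)

/-- The constant coefficient of the short form of `y ^ 2 + e x y + f y = x ^ 3`. -/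
def coeffB {R : Type} [CommRing R] (e f : R) : R := 54 * (e ^ 6 - 36 * e ^ 3 * f + 216 * f ^ 2)

variable {k : Type} [Field k]

/-- The coefficient of `x` of the short form of `y ^ 2 + (p - q - r) x y + p q r y = x ^ 3` over
`k'(t)`, where `p`, `q`, `r` are polynomials over `k`. -/
noncomputable def curveA (k' : Type) [Field k'] [Algebra k k'] (p q r : k[X]) : RatFunc k' :=
  coeffA (algebraMap k'[X] (RatFunc k') ((p - q - r).map (algebraMap k k')))
    (algebraMap k'[X] (RatFunc k') ((p * q * r).map (algebraMap k k')))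

/-- The constant coefficient of the short form of `y ^ 2 + (p - q - r) x y + p q r y = x ^ 3` over
`k'(t)`, where `p`, `q`, `r` are polynomials over `k`. -/
noncomputable def curveB (k' : Type) [Field k'] [Algebra k k'] (p q r : k[X]) : RatFunc k' :=
  coeffB (algebraMap k'[X] (RatFunc k') ((p - q - r).map (algebraMap k k')))
    (algebraMap k'[X] (RatFunc k') ((p * q * r).map (algebraMap k k')))

/-- The polynomials `p`, `q`, `r` are irreducible, pairwise non-associated and of degrees prime to three,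
the degree of `p q r` is divisible by three, the degree of `p - q - r` is at most a third of it, and all
irreducible factors of `(p - q - r) ^ 3 - 27 p q r` are of odd degree. -/
def IsTriple (p q r : k[X]) : Prop :=
  ((Irreducible p ∧ Irreducible q ∧ Irreducible r) ∧
    ¬ Associated p q ∧ ¬ Associated p r ∧ ¬ Associated q r) ∧
    (¬ 3 ∣ p.natDegree ∧ ¬ 3 ∣ q.natDegree ∧ ¬ 3 ∣ r.natDegree) ∧
    3 ∣ (p * q * r).natDegree ∧ 3 * (p - q - r).natDegree ≤ (p * q * r).natDegree ∧
    ∀ π : k[X], Irreducible π → π ∣ (p - q - r) ^ 3 - 27 * (p * q * r) → Odd π.natDegree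

/-- The number `n` is odd and prime to the degrees of all irreducible factors of `p q r` and of
`(p - q - r) ^ 3 - 27 p q r`. -/
def PrimeToDegrees (p q r : k[X]) (n : ℕ) : Prop :=
  Odd n ∧ ∀ π : k[X], Irreducible π →
    π ∣ p * q * r * ((p - q - r) ^ 3 - 27 * (p * q * r)) → Nat.Coprime π.natDegree n

/-- `L(T, E)` is `(1 - |k| T) ^ m G(T)`. -/
def LIs (k : Type) {K : Type} [Field k] [Field K] [Algebra k K] (a b : K) (m : ℕ) (G : ℤ[X]) :
    Prop :=
  S.Lfun k a b = (((1 - C (Nat.card k : ℤ) * X) ^ m * G : ℤ[X]) : PowerSeries ℤ)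

/-- The rational number `G(1 / |k|)` is not zero and its `3`-adic valuation is zero. -/
def UnitAt (k : Type) (G : ℤ[X]) : Prop :=
  (G.map (Int.castRingHom ℚ)).eval ((Nat.card k : ℕ) : ℚ)⁻¹ ≠ 0 ∧
    padicValRat 3 ((G.map (Int.castRingHom ℚ)).eval ((Nat.card k : ℕ) : ℚ)⁻¹) = 0

/-- The rank is at least one. If `L(T, E) = (1 - |k| T) ^ m G(T)` with `G` in `ℤ[T]`, then `m ≤ 1`, and if
`m = 1` then `UnitAt` holds for `G`. If `L(T, E)` is a polynomial with order of vanishing `r` at
`1 / |k|` then `r ≤ 1`, and if the rank is at most `r` then `r` and the rank are one. -/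
def RankOne (k : Type) {K : Type} [Field k] [Field K] [Algebra k K] (a b : K) : Prop :=
  1 ≤ rank a b ∧ (∀ (m : ℕ) (G : ℤ[X]), LIs k a b m G → m ≤ 1 ∧ (m = 1 → UnitAt k G)) ∧
    ∀ r : ℕ, HasOrder k a b r → r ≤ 1 ∧ (rank a b ≤ r → r = 1 ∧ rank a b = 1)

end defs

section proof

open Pool.Agent.R427

variable {k : Type} [Field k] [Finite k]

theorem ne_map {k' : Type} [Field k'] [Algebra k k'] (h6 : (6 : k) ≠ 0) : (6 : k') ≠ 0 := by
  have : algebraMap k k' 6 ≠ 0 := (_root_.map_ne_zero _).2 h6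
  rwa [map_ofNat] at this

theorem card_ext (k' : Type) [Field k'] [Finite k'] [Algebra k k'] (hq : Nat.card k % 3 = 2)
    (hn : Odd (Module.finrank k k')) : Nat.card k' % 3 = 2 := by
  haveI : Module.Finite k k' := Module.Finite.of_finite
  have h1 : Nat.card k' = Nat.card k ^ Module.finrank k k' := Module.natCard_eq_pow_finrank
  obtain ⟨m, hm⟩ := hn
  rw [h1, hm, pow_succ, pow_mul, Nat.mul_mod, Nat.pow_mod, Nat.pow_mod (Nat.card k) 2 3, hq]
  norm_num

theorem over_ext {p q r : k[X]} (h6 : (6 : k) ≠ 0) (hq : Nat.card k % 3 = 2)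
    (h : TS.Tri p q r) (k' : Type) [Field k'] [Finite k'] [Algebra k k']
    (hn : Odd (Module.finrank k k'))
    (hcop : ∀ π : k[X], Irreducible π →
      π ∣ p * q * r * ((p - q - r) ^ 3 - 27 * (p * q * r)) →
        Nat.Coprime π.natDegree (Module.finrank k k')) :
    RankOne k' (curveA k' p q r) (curveB k' p q r) := by
  haveI : Module.Finite k k' := Module.Finite.of_finite
  have h3 : (3 : k) ≠ 0 := fun e => h6 (by linear_combination 2 * e)
  have h1 := h.mapK (k' := k') h3 hcop
  have h2 := MP_1bad5e_ag.ThreePrimes.tri_rank (k := k') (ne_map h6) (card_ext k' hq hn)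
    (MP_1bad5e_ag.ThreePrimes.of_tri h1)
  unfold curveA curveB
  rw [Polynomial.map_sub, Polynomial.map_sub, Polynomial.map_mul, Polynomial.map_mul]
  exact h2

/-- infinitely many substitutions -/
theorem tower' {p q r : k[X]} (h : TS.Tri p q r) (h3 : (3 : k) ≠ 0)
    (h0 : p.coeff 0 * q.coeff 0 * r.coeff 0 ≠ 0)
    (h1 : (p.coeff 0 - q.coeff 0 - r.coeff 0) ^ 3 ≠ 27 * (p.coeff 0 * q.coeff 0 * r.coeff 0))
    {l : ℕ} (hl : l.Prime) (hl2 : l ≠ 2) (hl3 : 2 * (p * q * r).natDegree < l)
    (hd : l ∣ Nat.card k - 1) : ∃ c : k, c ≠ 0 ∧ ∀ j : ℕ,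
      TS.Tri (p.comp (C c * X ^ l ^ j)) (q.comp (C c * X ^ l ^ j)) (r.comp (C c * X ^ l ^ j)) ∧
      ∀ π : k[X], Irreducible π →
        π ∣ p * q * r * ((p - q - r) ^ 3 - 27 * (p * q * r)) →
          Irreducible (π.comp (C c * X ^ l ^ j)) := by
  set g : k[X] := p * q * r * ((p - q - r) ^ 3 - 27 * (p * q * r)) with hg
  have hg0 : g.coeff 0 ≠ 0 := by
    rw [hg, coeff_zero_eq_eval_zero]
    rw [coeff_zero_eq_eval_zero, coeff_zero_eq_eval_zero, coeff_zero_eq_eval_zero] at h0 h1
    simp only [eval_mul, eval_sub, eval_pow, eval_ofNat]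
    refine mul_ne_zero h0 fun h5 => h1 ?_
    linear_combination h5
  have hf3 : 3 ≤ (p * q * r).natDegree := by
    rw [natDegree_mul (mul_ne_zero h.ip.ne_zero h.iq.ne_zero) h.ir.ne_zero,
      natDegree_mul h.ip.ne_zero h.iq.ne_zero]
    have := h.ip.natDegree_pos
    have := h.iq.natDegree_pos
    have := h.ir.natDegree_pos
    omega
  have hgd : g.natDegree ≤ 2 * (p * q * r).natDegree := by
    have h5 := natDegree_mul_le (p := p * q * r) (q := (p - q - r) ^ 3 - 27 * (p * q * r))
    have h6 := natDegree_sub_le ((p - q - r) ^ 3) (27 * (p * q * r))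
    have h7 : ((p - q - r) ^ 3).natDegree = 3 * (p - q - r).natDegree := natDegree_pow _ _
    have h8 : (27 * (p * q * r) : k[X]).natDegree ≤ (p * q * r).natDegree :=
      natDegree_C_mul_le (27 : k) (p * q * r)
    have h9 := h.de
    rw [hg]
    rw [le_max_iff] at h6
    omega
  obtain ⟨c, hc, hirr⟩ := TH180.R4.exists_c hg0 hl hl2 (by omega) hd
  refine ⟨c, hc, fun j => ⟨?_, fun π h5 h6 => hirr j π h5 h6⟩⟩
  have hmd : (C c * X ^ l ^ j : k[X]).natDegree = l ^ j := natDegree_C_mul_X_pow _ _ hc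
  refine h.comp ?_ ?_ h3 fun π h5 h6 => hirr j π h5 h6
  · rw [hmd]
    exact (hl.odd_of_ne_two hl2).pow
  · rw [hmd]
    intro hd3
    have h5 := (Nat.prime_dvd_prime_iff_eq Nat.prime_three hl).1
      (Nat.prime_three.dvd_of_dvd_pow hd3)
    omega

end proof

/-- Let `k` be a finite field of characteristic at least five, and for `p`, `q`, `r` in `k[t]` and a
finite extension `k'` of `k` let `E` be the curve `y ^ 2 + (p - q - r) x y + p q r y = x ^ 3` over
`k'(t)`.

(1) Let `|k|` be congruent to `2` modulo three and let `(p, q, r)` be a triple. Then `RankOne` holds for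
`E` over `k'(t)` for all finite extensions `k'` of `k` whose degree is odd and prime to the degrees of the
irreducible factors of `p q r` and `(p - q - r) ^ 3 - 27 p q r`: the rank is at least one, the order of
vanishing of the `L`-function at `s = 1` is at most one, both are one if the rank is at most the order,
and the leading coefficient is a `3`-adic unit if the order is one.

(2) If moreover `p q r` and `(p - q - r) ^ 3 - 27 p q r` do not vanish at `0`, and `l` is a prime
dividing `|k| - 1` and larger than twice the degree of `p q r`, then for some `c` in `k`, not zero,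
`RankOne` holds for the curve with `p(c s ^ (l ^ j))`, `q(c s ^ (l ^ j))`, `r(c s ^ (l ^ j))` over `k'(s)`
(the base change of `E` to the extension `k'(s)` of `k(t)` with `t = c s ^ (l ^ j)`) for all `j` and all
`k'` as in (1) with `l` not dividing the degree of `k'` over `k`.

(3) Let `k` be arbitrary (of characteristic at least five) and `u` in `k` not a root of
`u (u + 1) (u - 1) (u + 2) (2 u + 1) (u ^ 2 + u + 1)`. If `l ≥ 5` is a prime dividing `|k| - 1`, there is
`c` in `k`, not zero, such that for `p = 1 + u ^ 3 t`, `q = -(1 + t)`, `r = -(1 - (u + 1) ^ 3 t)`,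
`RankOne` holds for the curve with `p(c s ^ (l ^ j))`, `q(c s ^ (l ^ j))`, `r(c s ^ (l ^ j))` over
`k'(s)` for all `j` and all finite extensions `k'` of `k` whose degree is not divisible by `l`. -/
theorem result (k : Type) [Field k] [Finite k] (h6 : (6 : k) ≠ 0) :
    (Nat.card k % 3 = 2 → ∀ p q r : k[X], IsTriple p q r →
      (∀ (k' : Type) [Field k'] [Finite k'] [Algebra k k'],
        PrimeToDegrees p q r (Module.finrank k k') →
          RankOne k' (curveA k' p q r) (curveB k' p q r)) ∧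
      (p.coeff 0 * q.coeff 0 * r.coeff 0 ≠ 0 →
        (p.coeff 0 - q.coeff 0 - r.coeff 0) ^ 3 ≠ 27 * (p.coeff 0 * q.coeff 0 * r.coeff 0) →
        ∀ l : ℕ, l.Prime → 2 * (p * q * r).natDegree < l → l ∣ Nat.card k - 1 →
          ∃ c : k, c ≠ 0 ∧ ∀ (j : ℕ) (k' : Type) [Field k'] [Finite k'] [Algebra k k'],
            PrimeToDegrees p q r (Module.finrank k k') → ¬ l ∣ Module.finrank k k' →
              RankOne k'
                (curveA k' (p.comp (C c * X ^ l ^ j)) (q.comp (C c * X ^ l ^ j))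
                  (r.comp (C c * X ^ l ^ j)))
                (curveB k' (p.comp (C c * X ^ l ^ j)) (q.comp (C c * X ^ l ^ j))
                  (r.comp (C c * X ^ l ^ j))))) ∧
    ∀ u : k, u * (u + 1) * (u - 1) * (u + 2) * (2 * u + 1) * (u ^ 2 + u + 1) ≠ 0 →
      ∀ l : ℕ, l.Prime → 5 ≤ l → l ∣ Nat.card k - 1 →
        ∃ c : k, c ≠ 0 ∧ ∀ (j : ℕ) (k' : Type) [Field k'] [Finite k'] [Algebra k k'],
          ¬ l ∣ Module.finrank k k' →
            RankOne k'
              (curveA k' (1 + C (u ^ 3 * c) * X ^ l ^ j) (-(1 + C c * X ^ l ^ j))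
                (-(1 - C ((u + 1) ^ 3 * c) * X ^ l ^ j)))
              (curveB k' (1 + C (u ^ 3 * c) * X ^ l ^ j) (-(1 + C c * X ^ l ^ j))
                (-(1 - C ((u + 1) ^ 3 * c) * X ^ l ^ j))) := by
  have h3 : (3 : k) ≠ 0 := fun e => h6 (by linear_combination 2 * e)
  refine ⟨fun hq p q r hT => ⟨?_, ?_⟩, ?_⟩
  · intro k' _ _ _ hn
    exact over_ext h6 hq (MP_1bad5e_ag.ThreePrimes.tri_of hT) k' hn.1 hn.2
  · intro h0 h1 l hl hl3 hd
    have hTr : Pool.Agent.R427.TS.Tri p q r := MP_1bad5e_ag.ThreePrimes.tri_of hT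
    have hf3 : 3 ≤ (p * q * r).natDegree := by
      rw [natDegree_mul (mul_ne_zero hTr.ip.ne_zero hTr.iq.ne_zero) hTr.ir.ne_zero,
        natDegree_mul hTr.ip.ne_zero hTr.iq.ne_zero]
      have := hTr.ip.natDegree_pos
      have := hTr.iq.natDegree_pos
      have := hTr.ir.natDegree_pos
      omega
    obtain ⟨c, hc, hj⟩ := tower' hTr h3 h0 h1 hl (by omega) hl3 hd
    refine ⟨c, hc, fun j k' _ _ _ hn hnl => ?_⟩
    obtain ⟨hT', hirr⟩ := hj j
    have hmd : (C c * X ^ l ^ j : k[X]).natDegree = l ^ j := natDegree_C_mul_X_pow _ _ hc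
    have hmp : 0 < (C c * X ^ l ^ j : k[X]).natDegree := by rw [hmd]; exact pow_pos hl.pos j
    refine over_ext h6 hq hT' k' hn.1 ?_
    intro ρ hρ hdv
    set g : k[X] := p * q * r * ((p - q - r) ^ 3 - 27 * (p * q * r)) with hg
    have e1 : p.comp (C c * X ^ l ^ j) * q.comp (C c * X ^ l ^ j) * r.comp (C c * X ^ l ^ j) *
        ((p.comp (C c * X ^ l ^ j) - q.comp (C c * X ^ l ^ j) - r.comp (C c * X ^ l ^ j)) ^ 3 -
          27 * (p.comp (C c * X ^ l ^ j) * q.comp (C c * X ^ l ^ j) *
            r.comp (C c * X ^ l ^ j))) = g.comp (C c * X ^ l ^ j) := by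
      rw [hg]
      simp only [sub_comp, pow_comp, mul_comp, ofNat_comp, Nat.cast_ofNat]
    rw [e1] at hdv
    have hg0 : g ≠ 0 := mul_ne_zero (mul_ne_zero (mul_ne_zero hTr.ip.ne_zero hTr.iq.ne_zero)
      hTr.ir.ne_zero) (hTr.node_ne h3)
    obtain ⟨π, h5, h7, h8⟩ := Pool.Agent.R427.TS.comp_fac hmp g hg0 hirr ρ hρ hdv
    rw [natDegree_eq_of_degree_eq (degree_eq_degree_of_associated h8), natDegree_comp, hmd]
    exact Nat.Coprime.mul_left (hn.2 π h5 h7)
      (Nat.Coprime.pow_left j ((Nat.Prime.coprime_iff_not_dvd hl).2 hnl))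
  · intro u hu l hl hl5 hd
    have hom := right_ne_zero_of_mul hu
    have hu' := left_ne_zero_of_mul hu
    obtain ⟨c, hc, hj⟩ := Pool.Agent.R427.TS.exists_irr hu' hl hl5 hd
    refine ⟨c, hc, fun j k' _ _ _ hnl => ?_⟩
    haveI : Module.Finite k k' := Module.Finite.of_finite
    obtain ⟨hu1, hom1, hw⟩ := Pool.Agent.R427.TS.W3_ext (k' := k') h3 hu' hom hl hl5 hc j (hj j) hnl
    have h6' : (6 : k') ≠ 0 := ne_map h6
    have h3' : (3 : k') ≠ 0 := fun e => h6' (by linear_combination 2 * e)
    haveI : Fact (Nat.Prime 3) := ⟨Nat.prime_three⟩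
    set φ := algebraMap k k' with hφ
    have hc' : φ c ≠ 0 := (_root_.map_ne_zero _).2 hc
    have hmd : (C (φ c) * X ^ l ^ j : k'[X]).natDegree = l ^ j := natDegree_C_mul_X_pow _ _ hc'
    have hpos : 0 < (C (φ c) * X ^ l ^ j : k'[X]).natDegree := by
      rw [hmd]; exact pow_pos hl.pos j
    have hadm : MP_8ac872_ag.ThreeSplitFibres.Admissible (Pool.Agent.R427.TS.L1 (φ u))
        (Pool.Agent.R427.TS.L2 k') (Pool.Agent.R427.TS.L3 (φ u)) :=
      ((MP_8ac872_ag.ThreeSplitFibres.result k' h6').2 (φ u) (mul_ne_zero hu1 hom1)).1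
    have h1 := (MP_8ac872_ag.ThreeSplitFibres.common h6' Pool.Agent.TH958.T4.isCurveField_rat hadm
      (MP_8ac872_ag.ThreeSplitFibres.poly_nonconst hpos)).2.2.2 1 Pool.Agent.W309.RF.isZetaNum_rat
    have h2 := h1.2.2 (by
      rw [MP_8ac872_ag.ThreeSplitFibres.rootSum_one, zero_add]
      exact hw)
    have eE : aeval (algebraMap k'[X] (RatFunc k') (C (φ c) * X ^ l ^ j))
        (Pool.Agent.R427.TS.L1 (φ u) - Pool.Agent.R427.TS.L2 k' - Pool.Agent.R427.TS.L3 (φ u)) =
        algebraMap k'[X] (RatFunc k') (((1 + C (u ^ 3 * c) * X ^ l ^ j) - -(1 + C c * X ^ l ^ j) -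
          -(1 - C ((u + 1) ^ 3 * c) * X ^ l ^ j)).map φ) := by
      unfold Pool.Agent.R427.TS.L1 Pool.Agent.R427.TS.L2 Pool.Agent.R427.TS.L3
      rw [aeval_algebraMap_apply]
      congr 1
      rw [← comp_eq_aeval]
      simp only [sub_comp, add_comp, neg_comp, mul_comp, one_comp, pow_comp, C_comp, X_comp,
        Polynomial.map_sub, Polynomial.map_add, Polynomial.map_neg, Polynomial.map_mul,
        Polynomial.map_pow, Polynomial.map_one, map_C, map_X, map_mul, map_pow, map_add, map_one,
        C_mul, C_pow, C_add, C_neg, map_neg]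
      ring
    have eF : aeval (algebraMap k'[X] (RatFunc k') (C (φ c) * X ^ l ^ j))
        (Pool.Agent.R427.TS.L1 (φ u) * Pool.Agent.R427.TS.L2 k' * Pool.Agent.R427.TS.L3 (φ u)) =
        algebraMap k'[X] (RatFunc k') (((1 + C (u ^ 3 * c) * X ^ l ^ j) * -(1 + C c * X ^ l ^ j) *
          -(1 - C ((u + 1) ^ 3 * c) * X ^ l ^ j)).map φ) := by
      unfold Pool.Agent.R427.TS.L1 Pool.Agent.R427.TS.L2 Pool.Agent.R427.TS.L3
      rw [aeval_algebraMap_apply]
      congr 1
      rw [← comp_eq_aeval]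
      simp only [sub_comp, add_comp, neg_comp, mul_comp, one_comp, pow_comp, C_comp, X_comp,
        Polynomial.map_sub, Polynomial.map_add, Polynomial.map_neg, Polynomial.map_mul,
        Polynomial.map_pow, Polynomial.map_one, map_C, map_X, map_mul, map_pow, map_add, map_one,
        C_mul, C_pow, C_add, C_neg, map_neg]
      ring
    unfold MP_8ac872_ag.ThreeSplitFibres.hA MP_8ac872_ag.ThreeSplitFibres.hB at h2
    rw [eE, eF] at h2
    exact h2

end Pool.Agent.Results.MP_72e2e6_nt.ConstantExtensions
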