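import Mathlib
import Pool.Agent.TH115.GD.Defs
import Pool.Agent.TH115.ID.Defs
import Pool.Agent.R939.EI.Tw1
import Pool.Agent.R939.CC.Poly

/-!
# Finite Tate-Shafarevich groups in Kummer towers for many quadratic twists

Let `k` be a finite field with `q` elements, `q` odd, `K = k(t)`, `F = k^sep(t)`, and let
`E : y² = x (x² + a x + b)` be an elliptic curve over `K` with a rational point of order two, `a`, `b`
polynomials. `TateAtTwo` says that all the classes in `V₂ Sel(E / F)` which are fixed by the Galois
group of `k` come from `E(K)`: the Tate conjecture for divisors at the prime 2 on the elliptic surface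
over the projective line with generic fibre `E`, which over a finite field is equivalent to the
finiteness of the Tate-Shafarevich group of `E` over `K`.

Theorem. Let `b` and `a² - 4 b` satisfy the condition `NotNorm` (not a constant times a square or times
a norm of a polynomial over the quadratic extension of `k`), let their product be not a constant times
a square, and let `OnlyTrivial` hold for `(a, b)` and for `(-2 a, a² - 4 b)`, the curve isogenous to
`E`. All this holds for example if `b` and `a² - 4 b` are irreducible of odd degree and `b` does not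
divide `a`. Let `ℓ` be an odd prime which divides `q - 1`, and suppose that no root of
`b (a² - 4 b)` is an `ℓ`-th power in the field generated by it. Put `δ = (1 - 1 / ℓ) / 4`. Then there is
a `c > 0` such that for all large `n` there are at least

`c q^n / n^(1 - δ)`

monic squarefree polynomials `D` of degree `n` (of the `q^n - q^(n-1)` such polynomials) such that for
all `j` at the same time the Tate conjecture at 2 holds over `L = k(t ^ (1 / ℓ ^ j))` for the quadratic
twist `y² = x (x² + a D x + b D²)` and for its twists by constants. So the Tate-Shafarevich groups of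
these twists are finite over all the fields `L` of the tower.

Proof. The criterion of `Pool.Agent.R939.EI.Tw1` applies if `b` and `a² - 4 b` are not squares modulo
the primes which divide `D` and the primes which divide `b (a² - 4 b) D` remain prime after
`t ↦ t ^ (ℓ ^ j)`; by the theorem of Vahlen and Capelli the latter holds for all `j` if their roots are
not `ℓ`-th powers. By the bound of Weil the primes `P` of degree `m` with both properties have the
density `δ`, with an error `O(q^(m/2))`. For the number of squarefree products of such primes we use a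
recursion (`Pool.Agent.R939.CC.Comb` and `Ana`) which is solved up to a constant factor.
-/

namespace Pool.Agent.Results.MP_72e2e6_nt.ManyTwistsInTowers

open Polynomial Pool.Agent.TH115.GD Pool.Agent.R939.EI

theorem result {k k' K F : Type} [Field k] [Fintype k] [Field k'] [Algebra k k'] [Field K]
    [Algebra k[X] K] [Field F] [Algebra k'[X] F] [IsFractionRing k'[X] F] [Algebra K F]
    (hT : IsTower k k' K F) (hk : ringChar k ≠ 2) {a b : k[X]}
    (hNb : NotNorm b) (hNd : NotNorm (a ^ 2 - 4 * b))
    (hbd : ∀ (c : k) (g : k[X]), b * (a ^ 2 - 4 * b) ≠ C c * g ^ 2)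
    (hO : OnlyTrivial a b) (hO' : OnlyTrivial (-2 * a) (a ^ 2 - 4 * b))
    {ℓ : ℕ} (hℓ : ℓ.Prime) (hℓ2 : ℓ ≠ 2) (hℓk : ℓ ∣ Fintype.card k - 1)
    (hp : ∀ π : k[X], Irreducible π → π ∣ b * (a ^ 2 - 4 * b) →
      ∀ y : AdjoinRoot π, y ^ ℓ ≠ AdjoinRoot.root π) :
    ∃ (c : ℝ) (n0 : ℕ), 0 < c ∧ ∀ n : ℕ, n0 ≤ n → ∃ V : Finset k[X],
      (∀ D ∈ V, D.Monic ∧ Squarefree D ∧ D.natDegree = n ∧
        ∀ (e : k) (j : ℕ), e ≠ 0 →
          TateAtTwo (F := F) k' (crvT (algebraMap k[X] K ((C e * (a * D)).comp (X ^ (ℓ ^ j))))
            (algebraMap k[X] K ((C (e ^ 2) * (b * D ^ 2)).comp (X ^ (ℓ ^ j)))))) ∧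
      c * (n : ℝ) ^ (1 / 4 * (1 - 1 / (ℓ : ℝ))) * (Fintype.card k : ℝ) ^ n ≤ n * V.card :=
  Pool.Agent.R939.CC.kummer_twists hT hk hNb hNd hbd hO hO' hℓ hℓ2 hℓk hp

end Pool.Agent.Results.MP_72e2e6_nt.ManyTwistsInTowers
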