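import Pool.Agent.R333.Sel.Tow

/-!
# Finiteness of Tate-Shafarevich groups: fields whose automorphism groups have cyclic subgroups

`K` is a field (a global function field in the application), `Ω` its separable closure and `A` a
discrete `Gal(Ω/K)`-module (the points of an abelian variety).  If for the finite separable
extensions `F` of `K` such that every subgroup of `Aut(F/K)` whose order is a product of two primes
is cyclic, the `l`-primary part of `Ш(A/F)` is finite for almost all primes `l`, then this holds for
all finite separable extensions `F` of `K`.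
-/

set_option autoImplicit false

namespace Pool.Agent.Results.MP_72e2e6_nt.NormRelations

open Pool.Agent.R333.Sel (Sel resAct)

/-- The Tate-Shafarevich group of the `Gal(Ω/F)`-module `A`: the classes in `H¹(F, A)` that are
trivial on the decomposition groups of all nontrivial absolute values of `Ω`. -/
abbrev Sha {F Ω A : Type} [Field F] [Field Ω] [Algebra F Ω] [AddCommGroup A]
    (ρ : Gal(Ω/F) →* AddMonoid.End A) : Type :=
  Sel ρ (⊤ : AddSubgroup A)

/-- For all but finitely many primes `l` the `l`-primary part of the group `S` is finite. -/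
def AlmostFinite (S : Type) [AddCommGroup S] : Prop :=
  {l : ℕ | l.Prime ∧ ¬ {x : S | ∃ k : ℕ, l ^ k • x = 0}.Finite}.Finite

/-- Every subgroup of `G` whose order is a product of two primes is cyclic. -/
def CyclicSubgroups (G : Type) [Group G] : Prop :=
  ∀ (H : Subgroup G) (q r : ℕ), q.Prime → r.Prime → Nat.card H = q * r → IsCyclic H

/-- For all but finitely many primes `l` the `l`-primary part of `Ш(A/F)` is finite. -/
def ShaAlmostFinite {K Ω A : Type} [Field K] [Field Ω] [Algebra K Ω] [AddCommGroup A]
    (ρ : Gal(Ω/K) →* AddMonoid.End A) (F : Type) [Field F] [Algebra K F] [Algebra F Ω]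
    [IsScalarTower K F Ω] : Prop :=
  AlmostFinite (Sha (resAct ρ F))

/-- The `Gal(Ω/K)`-module `A` is discrete: every element is fixed by the automorphisms that fix the
elements of some finite subset of `Ω`. -/
def IsDiscrete {K Ω A : Type} [Field K] [Field Ω] [Algebra K Ω] [AddCommGroup A]
    (ρ : Gal(Ω/K) →* AddMonoid.End A) : Prop :=
  ∀ P : A, ∃ s : Finset Ω, ∀ σ : Gal(Ω/K), (∀ x ∈ s, σ x = x) → ρ σ P = P

section Aux

open Pool.Agent.R333.Sel

theorem fin_congr {S S' : Type} [AddCommGroup S] [AddCommGroup S'] (e : S ≃+ S') (h : FinPP S) :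
    FinPP S' := by
  refine h.subset ?_
  rintro l ⟨hl, hinf⟩
  refine ⟨hl, fun hfin => hinf ?_⟩
  refine (hfin.image e).subset ?_
  rintro y ⟨k, hk⟩
  refine ⟨e.symm y, ⟨k, ?_⟩, e.apply_symm_apply y⟩
  rw [← map_nsmul, hk, map_zero]

theorem res_res {K F F' Ω A : Type} [Field K] [Field F] [Field F'] [Field Ω] [Algebra K F]
    [Algebra F F'] [Algebra K F'] [Algebra K Ω] [Algebra F Ω] [Algebra F' Ω] [IsScalarTower K F Ω]
    [IsScalarTower F F' Ω] [IsScalarTower K F' Ω] [AddCommGroup A]
    (ρ : Gal(Ω/K) →* AddMonoid.End A) : resAct (resAct ρ F) F' = resAct ρ F' := rfl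

/-- the Galois case -/
theorem galois_case {K F Ω A : Type} [Field K] [Field F] [Field Ω] [Algebra K F] [Algebra K Ω]
    [Algebra F Ω] [IsScalarTower K F Ω] [FiniteDimensional K F] [IsGalois K F] [Normal K Ω]
    [Algebra.IsAlgebraic K Ω] [AddCommGroup A] (ρ : Gal(Ω/K) →* AddMonoid.End A)
    (hρ : ∀ P : A, ∃ s : Finset Ω, ∀ σ : Gal(Ω/K), (∀ x ∈ s, σ x = x) → ρ σ P = P)
    (hG : ∀ g : Gal(F/K), g ≠ 1 → (orderOf g).Prime) (hc : ¬ IsCyclic Gal(F/K))
    (h : ∀ H : Subgroup Gal(F/K), H ≠ ⊥ →
      FinPP (Sel (resAct ρ (IntermediateField.fixedField H)) (⊤ : AddSubgroup A))) :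
    FinPP (Sel (resAct ρ F) (⊤ : AddSubgroup A)) := by
  have hsurj : Function.Surjective (AlgEquiv.restrictNormalHom F : Gal(Ω/K) → Gal(F/K)) :=
    AlgEquiv.restrictNormalHom_surjective Ω
  choose s hs using hsurj
  have hT : ∀ σ : Gal(Ω/K), ∀ x ∈ (⊤ : AddSubgroup A), ρ σ x ∈ (⊤ : AddSubgroup A) :=
    fun _ _ _ => AddSubgroup.mem_top _
  have h1 := fin_ker (sdat ρ ⊤ hT hρ) (AlgEquiv.restrictNormalHom F) s hs (ker_open ρ ⊤ hT hρ) hG hc
    (fun H hH => by
      have h2 := fin_congr (selEquiv ρ ⊤ hT hρ (IntermediateField.fixedField H)) (h H hH)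
      rw [jr_eq, IntermediateField.fixingSubgroup_fixedField] at h2
      exact h2)
  rw [← jr_top] at h1
  exact fin_congr (selEquiv ρ ⊤ hT hρ F).symm h1

theorem step {K Ω A : Type} [Field K] [Field Ω] [Algebra K Ω] [Normal K Ω] [AddCommGroup A]
    (ρ : Gal(Ω/K) →* AddMonoid.End A)
    (hρ : ∀ P : A, ∃ s : Finset Ω, ∀ σ : Gal(Ω/K), (∀ x ∈ s, σ x = x) → ρ σ P = P)
    (h : ∀ (F : Type) [Field F] [Algebra K F] [Algebra F Ω] [IsScalarTower K F Ω]
      [FiniteDimensional K F], CyclicSubgroups Gal(F/K) → FinPP (Sel (resAct ρ F) (⊤ : AddSubgroup A)))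
    (n : ℕ) : ∀ (F : Type) [Field F] [Algebra K F] [Algebra F Ω] [IsScalarTower K F Ω]
      [FiniteDimensional K F], Module.finrank K F = n →
      FinPP (Sel (resAct ρ F) (⊤ : AddSubgroup A)) := by
  induction n using Nat.strong_induction_on with
  | _ n ih =>
    intro F _ _ _ _ _ hn
    by_cases hcyc : CyclicSubgroups Gal(F/K)
    · exact h F hcyc
    · unfold CyclicSubgroups at hcyc
      push Not at hcyc
      obtain ⟨H0, q, r, hq, hr, hcard, hncyc⟩ := hcyc
      let K' : IntermediateField K F := IntermediateField.fixedField H0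
      have e1 : H0 ≃* Gal(F/K') := IntermediateField.subgroupEquivAlgEquiv H0
      have hfr : Module.finrank K' F = Nat.card H0 := IntermediateField.finrank_fixedField_eq_card H0
      have hgal : IsGalois K' F := IsGalois.of_card_aut_eq_finrank K' F (by
        rw [hfr, ← Nat.card_congr e1.toEquiv])
      have hcard' : Nat.card Gal(F/K') = q * r := by
        rw [← Nat.card_congr e1.toEquiv, hcard]
      have hc' : ¬ IsCyclic Gal(F/K') := fun hc => hncyc
        (isCyclic_of_surjective e1.symm.toMonoidHom e1.symm.surjective)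
      have htow : IsScalarTower K K' Ω := IsScalarTower.of_algebraMap_eq fun x => by
        change algebraMap K Ω x = algebraMap F Ω (algebraMap K F x)
        rw [← IsScalarTower.algebraMap_apply]
      have hnorm : Normal K' Ω := Normal.tower_top_of_normal K K' Ω
      have halg : Algebra.IsAlgebraic K' Ω := inferInstance
      have hρ' : ∀ P : A, ∃ s : Finset Ω, ∀ σ : Gal(Ω/K'), (∀ x ∈ s, σ x = x) →
          resAct ρ K' σ P = P := by
        intro P
        obtain ⟨s, hs⟩ := hρ P
        exact ⟨s, fun σ hσ => hs (AlgEquiv.restrictScalarsHom K σ) hσ⟩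
      refine galois_case (K := K') (resAct ρ K') hρ' (prime_orders hq hr hcard' hc') hc' fun H hH => ?_
      set E' : IntermediateField K' F := IntermediateField.fixedField H with hE'
      have hE'fr : Module.finrank E' F = Nat.card H := IntermediateField.finrank_fixedField_eq_card H
      have htow2 : IsScalarTower K (E'.restrictScalars K) Ω :=
        IsScalarTower.of_algebraMap_eq fun x => by
          change algebraMap K Ω x = algebraMap F Ω (algebraMap K F x)
          rw [← IsScalarTower.algebraMap_apply]
      have hlt : Module.finrank K (E'.restrictScalars K) < n := by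
        have h1 := Module.finrank_mul_finrank K (E'.restrictScalars K) F
        have h2 : Module.finrank (E'.restrictScalars K) F = Nat.card H := hE'fr
        have h3 : 1 < Nat.card H := by
          rw [Subgroup.one_lt_card_iff_ne_bot]
          exact hH
        rw [h2, hn] at h1
        have h4 : 0 < Module.finrank K (E'.restrictScalars K) := Module.finrank_pos
        rw [← h1]
        exact (Nat.lt_mul_iff_one_lt_right h4).2 h3
      exact ih _ hlt (E'.restrictScalars K) rfl

end Aux

/-- **Reduction to fields whose automorphism groups have cyclic subgroups.** Let `K` be a field, `Ω`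
a separable closure of `K` and `A` a discrete `Gal(Ω/K)`-module. For all finite extensions `F` of `K`
in `Ω` the primary parts of `Ш(A/F)` are finite for almost all primes, if and only if this is so for
those `F` for which every subgroup of `Aut(F/K)` whose order is a product of two primes is cyclic. -/
theorem result (K Ω A : Type) [Field K] [Field Ω] [Algebra K Ω] [IsSepClosure K Ω]
    [AddCommGroup A] (ρ : Gal(Ω/K) →* AddMonoid.End A) (hρ : IsDiscrete ρ) :
    (∀ (F : Type) [Field F] [Algebra K F] [Algebra F Ω] [IsScalarTower K F Ω]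
      [FiniteDimensional K F], ShaAlmostFinite ρ F) ↔
    ∀ (F : Type) [Field F] [Algebra K F] [Algebra F Ω] [IsScalarTower K F Ω]
      [FiniteDimensional K F], CyclicSubgroups Gal(F/K) → ShaAlmostFinite ρ F := by
  have : IsGalois K Ω := IsSepClosure.isGalois
  refine ⟨fun h F _ _ _ _ _ _ => h F, fun h F _ _ _ _ _ => ?_⟩
  exact step ρ hρ (fun F _ _ _ _ _ hF => h F hF) _ F rfl

end Pool.Agent.Results.MP_72e2e6_nt.NormRelations
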