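import Pool.Agent.R427.AQ4

/-!
# Elliptic curves whose `L`-values over all extensions of degree a power of a prime `l` are prime to `l`

Let `K` be the function field of a curve over a finite field of characteristic at least five, `l` an odd
prime different from the characteristic, and `K(√u)` a quadratic extension with class number prime to
`l`. Let `E` be a semistable elliptic curve over `K` such that `l` divides the number of points of all
good reductions. If the twist of `E` by `u` has no place of split multiplicative reduction, then over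
every subfield `L` of a Galois extension of `K` of degree a power of `l` in which no place ramifies that
splits in `K(√u)`, the value of the `L`-function of the twist at `s = 1` is not zero and its `l`-adic
valuation is zero. The curves with a point of order five or seven satisfy the conditions on `E`.
-/

set_option autoImplicit false
set_option linter.all false
set_option maxHeartbeats 4000000

open Polynomial Pool.Agent.W343.BSD Pool.Agent.W313.Gr

namespace Pool.Agent.Results.MP_72e2e6_nt.UnitLValues

section defs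

variable {k K : Type} [Field k] [Field K] [Algebra k K]

/-- The curve `y ^ 2 = x ^ 3 + a x + b` has bad reduction at `v`. -/
def IsBad (v : FF.Place k K) (a b : K) : Prop := v.ord (minDisc v a b) ≠ 0

/-- The curve `y ^ 2 = x ^ 3 + a x + b` is elliptic, the reduction at all places is good or
multiplicative (the coefficient of `x` of the minimal model is a unit), `l` divides the number of
points of the reduction at all places of good reduction, and at the places of bad reduction the
reduction is split multiplicative or `l` divides `q_v + 1`. -/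
structure IsCurveMod (l : ℕ) (k : Type) {K : Type} [Field k] [Field K] [Algebra k K] (a b : K) :
    Prop where
  disc : 4 * a ^ 3 + 27 * b ^ 2 ≠ 0
  semistable : ∀ v : FF.Place k K, IsBad v a b → minA v a b ≠ 0 ∧ v.ord (minA v a b) = 0
  points : ∀ v : FF.Place k K, ¬ IsBad v a b → (l : ℤ) ∣ Nat.card (S.Res v) + 1 - S.trace v a b
  nodes : ∀ v : FF.Place k K, IsBad v a b →
    S.trace v a b = 1 ∨ (l : ℤ) ∣ (Nat.card (S.Res v) : ℤ) + 1

/-- The curve has no place of split multiplicative reduction. -/
def NoSplit (k : Type) {K : Type} [Field k] [Field K] [Algebra k K] (a b : K) : Prop :=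
  ∀ v : FF.Place k K, IsBad v a b → S.trace v a b ≠ 1

/-- The element `u` is a square in the completion of `K` at `v`: if `u` is not a square in `K`, then
`v` splits in `K(√u)`. -/
def Splits (v : FF.Place k K) (u : K) : Prop :=
  ∃ s : K, u = s ^ 2 ∨ v.ord u < v.ord (u - s ^ 2)

/-- If `L(T, E)` is `(1 - |k| T) ^ m G(T)` with `G` in `ℤ[T]` then `m = 0`; and if the order of
vanishing at `T = 1 / |k|` is `r` then `r = 0`, and the rank is zero if it is at most `r`. -/
def RankZero (k : Type) {K : Type} [Field k] [Field K] [Algebra k K] (a b : K) : Prop :=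
  (∀ m : ℕ, S.VanishesTo k a b m → m = 0) ∧
    ∀ r : ℕ, HasOrder k a b r → r = 0 ∧ (rank a b ≤ r → rank a b = 0)

/-- If `L(T, E)` is a polynomial `G(T)` in `ℤ[T]` then the rational number `G(1 / |k|)` is not zero and
its `l`-adic valuation is zero. -/
def UnitValue (l : ℕ) (k : Type) {K : Type} [Field k] [Field K] [Algebra k K] (a b : K) : Prop :=
  ∀ G : ℤ[X], S.Lfun k a b = (G : PowerSeries ℤ) →
    (G.map (Int.castRingHom ℚ)).eval ((Nat.card k : ℕ) : ℚ)⁻¹ ≠ 0 ∧
      padicValRat l ((G.map (Int.castRingHom ℚ)).eval ((Nat.card k : ℕ) : ℚ)⁻¹) = 0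

/-- `M` is the function field of a curve over `k` and is `K(√u)`. -/
def IsQuadField (k K M : Type) [Field k] [Field K] [Field M] [Algebra k M] [Algebra K M] (u : K) :
    Prop :=
  IsCurveField k M ∧ ∃ θ : M, θ ^ 2 = algebraMap K M u ∧ IntermediateField.adjoin K {θ} = ⊤

/-- `L'` is a Galois extension of `K` of degree a power of `l` in which the places of `K` in `T` are
not ramified. -/
def IsExtension (l : ℕ) (k K L' : Type) [Field k] [Field K] [Field L'] [Algebra k K]
    [Algebra k L'] [Algebra K L'] (T : Set (FF.Place k K)) : Prop :=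
  FiniteDimensional K L' ∧ IsGalois K L' ∧ (∃ n : ℕ, Module.finrank K L' = l ^ n) ∧
    ∀ v ∈ T, ∀ (w : FF.Place k L') (e : ℕ), 0 < e →
      (∀ x : K, w.ord (algebraMap K L' x) = e * v.ord x) → e = 1

/-- The field `L` is contained in a Galois extension of `K` of degree a power of `l` in which the
places of `K` in `T` are not ramified. -/
def InExtension (l : ℕ) (k K L : Type) [Field k] [Field K] [Field L] [Algebra k K] [Algebra k L]
    [Algebra K L] (T : Set (FF.Place k K)) : Prop :=
  ∃ (L' : Type) (_ : Field L') (_ : Algebra k L') (_ : Algebra K L') (_ : Algebra L L'),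
    IsScalarTower k K L' ∧ IsScalarTower K L L' ∧ IsExtension l k K L' T

/-- The places which split in `K(√u)` or for which `l` divides `q_v + 1`. -/
def badSet (l : ℕ) (k : Type) {K : Type} [Field k] [Field K] [Algebra k K] (u : K) :
    Set (FF.Place k K) :=
  {v | Splits v u ∨ l ∣ Nat.card (S.Res v) + 1}

/-- The conclusions for the twists by `u` over `L`: for the curves over `L`, and for the curves over
`K`. -/
def Conclusion (l : ℕ) (k : Type) {K : Type} (L : Type) [Field k] [Field K] [Field L] [Algebra k K]
    [Algebra k L] [Algebra K L] (u : K) : Prop :=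
  (∀ a b : L, IsCurveMod l k a b →
    NoSplit k (algebraMap K L u ^ 2 * a) (algebraMap K L u ^ 3 * b) →
      RankZero k (algebraMap K L u ^ 2 * a) (algebraMap K L u ^ 3 * b) ∧
        UnitValue l k (algebraMap K L u ^ 2 * a) (algebraMap K L u ^ 3 * b)) ∧
  ∀ a b : K, IsCurveMod l k a b → NoSplit k (u ^ 2 * a) (u ^ 3 * b) →
    RankZero k (algebraMap K L (u ^ 2 * a)) (algebraMap K L (u ^ 3 * b)) ∧
      UnitValue l k (algebraMap K L (u ^ 2 * a)) (algebraMap K L (u ^ 3 * b))

open Classical in
/-- `y ^ 2 = x ^ 3 + a x + b` is an elliptic curve with a `K`-rational point of order `l`. -/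
def HasPointOfOrder (l : ℕ) (a b : K) : Prop :=
  4 * a ^ 3 + 27 * b ^ 2 ≠ 0 ∧ ∃ P : (curve a b).toAffine.Point, addOrderOf P = l

end defs

section proof

open Pool.Agent.R427

theorem IsCurveMod.semi {l : ℕ} {k K : Type} [Field k] [Field K] [Algebra k K] {a b : K}
    (h : IsCurveMod l k a b) (v : FF.Place k K) : TW.SemiAt v a b := by
  by_cases hv : v.ord (minDisc v a b) = 0
  · exact Or.inl hv
  · exact Or.inr (h.semistable v hv)

theorem IsCurveMod.pts {l : ℕ} {k K : Type} [Field k] [Field K] [Algebra k K] {a b : K}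
    (h : IsCurveMod l k a b) : PointsDvd l k a b :=
  fun v hv => h.points v fun h1 => h1 hv

theorem isCurveMod_of {l : ℕ} {k K : Type} [Field k] [Field K] [Algebra k K] {a b : K}
    (hΔ : 4 * a ^ 3 + 27 * b ^ 2 ≠ 0) (hS : ∀ v : FF.Place k K, TW.SemiAt v a b)
    (hP : PointsDvd l k a b) (hM : ∀ v : FF.Place k K, AQ.NodeAt l v a b) : IsCurveMod l k a b :=
  ⟨hΔ, fun v hv => (hS v).resolve_left hv, fun v hv => hP v (not_not.1 hv), fun v hv => hM v hv⟩

theorem rankZero_of {k K : Type} [Field k] [Finite k] [Field K] [Algebra k K] [FF.IsFF k K]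
    {a b : K} (h : ∀ m : ℕ, S.VanishesTo k a b m → m = 0) : RankZero k a b := by
  have hR : ((0 : ℕ) : Cardinal) ≤ rank a b := by rw [Nat.cast_zero]; exact zero_le
  refine ⟨h, fun r hr => ?_⟩
  obtain ⟨h1, h2⟩ := Pool.Agent.TH180.R4.concl4 hR (fun m hm => (h m hm).le) r hr
  exact ⟨Nat.le_zero.1 h1, fun hle => by rw [(h2 hle).2, Nat.cast_zero]⟩

theorem concl_of {l : ℕ} [Fact l.Prime] {k K : Type} [Field k] [Finite k] [Field K] [Algebra k K]
    [FF.IsFF k K] (h6 : (6 : k) ≠ 0) (hlk : ((l : ℕ) : k) ≠ 0) (hl : 2 < l) {a b u : K}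
    (hP : PointsDvd l k a b) (hS : ∀ v : FF.Place k K, TW.SemiAt v a b)
    (hM : ∀ v : FF.Place k K, AQ.NodeAt l v a b) (hΔ : 4 * a ^ 3 + 27 * b ^ 2 ≠ 0) (hu : u ≠ 0)
    (hrel : AQ.NR2 l k u)
    (hz : ∀ v : FF.Place k K, TW.splitW l v (u ^ 2 * a) (u ^ 3 * b) = 0) :
    RankZero k (u ^ 2 * a) (u ^ 3 * b) ∧ UnitValue l k (u ^ 2 * a) (u ^ 3 * b) := by
  obtain ⟨h1, h2⟩ := AQ.twist_unit h6 hlk hl hP hS hM hΔ hu hrel
  refine ⟨rankZero_of fun m hm => ?_, fun G hG => h2 hz G hG⟩
  have h3 := h1 m hm
  rw [finsum_congr hz, finsum_zero] at h3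
  exact Nat.le_zero.1 h3

theorem conclusion_of {l : ℕ} {k K L : Type} [Field k] [Finite k] [Field K] [Algebra k K]
    [FF.IsFF k K] [Field L] [Algebra k L] [Algebra K L] [IsScalarTower k K L] (h6 : (6 : k) ≠ 0)
    (hl : l.Prime) (hl2 : l ≠ 2) (hlk : ((l : ℕ) : k) ≠ 0) {u : K} (hu : u ≠ 0)
    (hL : InExtension l k K L (badSet l k u)) (h : AQ.NR2 l k u) : Conclusion l k L u := by
  have : Fact l.Prime := ⟨hl⟩
  have hlo : Odd l := hl.odd_of_ne_two hl2
  have hl3 : 2 < l := lt_of_le_of_ne hl.two_le (Ne.symm hl2)
  obtain ⟨L', i1, i2, i3, i4, t1, t2, hfd, hgal, ⟨N, hN⟩, hram⟩ := hL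
  have hfdL : FiniteDimensional L L' := Module.Finite.of_restrictScalars_finite K L L'
  have hfdKL : FiniteDimensional K L := Module.Finite.left K L L'
  obtain ⟨n, -, hn⟩ : ∃ n ≤ N, Module.finrank K L = l ^ n := by
    rw [← Nat.dvd_prime_pow hl, ← hN, ← Module.finrank_mul_finrank K L L']
    exact dvd_mul_right _ _
  have hNR : AQ.NR2 l k (algebraMap K L u) := by
    refine AQ.rel_sub2 hlo h6 hlk n K L L' N hN hn u hu ?_ h
    rintro v ⟨w, e, hov, he⟩
    constructor
    · intro h1
      exact he (hram v (Or.inl (TW.chi_one_iff.1 h1)) w e hov.1 hov.2)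
    · intro h1
      refine he (hram v (Or.inr ?_) w e hov.1 hov.2)
      rw [← ZMod.natCast_eq_zero_iff]
      push_cast
      rw [show ((Nat.card (S.Res v) : ℕ) : ZMod l) = ((Nat.card k : ℕ) : ZMod l) ^ v.deg from
        card_RFl v, h1]
      ring
  have hFFL : FF.IsFF k L := isFF_of_finite (K := K)
  have huL : algebraMap K L u ≠ 0 := (_root_.map_ne_zero _).2 hu
  constructor
  · intro a b hab hns
    refine concl_of h6 hlk hl3 hab.pts hab.semi hab.nodes hab.disc huL hNR fun v => ?_
    unfold TW.splitW
    rw [if_neg]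
    rintro ⟨h1, h2⟩
    exact hns v h1 h2
  · intro a b hab hns
    have hΔ := hab.disc
    have hΔ' : 4 * algebraMap K L a ^ 3 + 27 * algebraMap K L b ^ 2 ≠ 0 := by
      rw [TW.disc_map']
      exact (_root_.map_ne_zero _).2 hΔ
    obtain ⟨hP', hS'⟩ := TW.gen_up (l := l) (L := L) L' hN hΔ hab.pts hab.semi
    have hM' := AQ.node_up (l := l) (L := L) L' hN h6 hl3 hΔ hab.pts hab.semi hab.nodes
    rw [map_mul, map_pow, map_mul, map_pow]
    exact concl_of h6 hlk hl3 hP' hS' hM' hΔ' huL hNR fun w =>
      AQ.split_up (l := l) (L := L) L' hN h6 hl3 hΔ hu hab.pts hab.semi hns w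

end proof

/-- (1) Let `K` be the function field of a curve over the field `k` with `q` elements, of
characteristic at least five, let `l` be an odd prime different from the characteristic and let `u` in
`K` be not a square, such that `k` is the field of constants of `K(√u)` and the class number of
`K(√u)` is prime to `l`. Let `L` be contained in a Galois extension of `K` of degree a power of `l` in
which no place `v` of `K` ramifies which splits in `K(√u)` or for which `l` divides `q_v + 1` (the latter
never ramify). Let `E` over `K` (or over `L`) be semistable such that `l` divides the number of points of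
all good reductions and such that at the bad places the reduction is split or `l` divides `q_v + 1`. If
the quadratic twist `E ^ u` has no place of split multiplicative reduction over `K` (or over `L`), then
the order of vanishing of `L(E ^ u / L)` at `s = 1` is zero, if the rank of `E ^ u` over `L` is at most
this order then it is zero, and if `L(T, E ^ u / L)` is an integral polynomial then its value at
`T = 1 / q` is a rational number different from zero with `l`-adic valuation zero.

(2) For `K = k(t)` the hypothesis on `K(√u)` holds for all polynomials `u` of degree one: (1) holds for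
these without any condition on class numbers.

(3) All elliptic curves over a function field `K` of characteristic at least five with a `K`-rational
point of order `l`, where `l` is five or seven and different from the characteristic, satisfy the
conditions on `E`. -/
theorem result :
    (∀ (l : ℕ) (k K : Type) [Field k] [Finite k] [Field K] [Algebra k K], l.Prime → l ≠ 2 →
      (6 : k) ≠ 0 → (l : k) ≠ 0 → IsCurveField k K → ∀ u : K, ¬ IsSquare u →
      ∀ (M : Type) [Field M] [Algebra k M] [Algebra K M] [IsScalarTower k K M],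
        IsQuadField k K M u → ¬ l ∣ S.classNumber k M →
      ∀ (L : Type) [Field L] [Algebra k L] [Algebra K L] [IsScalarTower k K L],
        InExtension l k K L (badSet l k u) → Conclusion l k L u) ∧
    (∀ (l : ℕ) (k : Type) [Field k] [Finite k], l.Prime → l ≠ 2 → (6 : k) ≠ 0 → (l : k) ≠ 0 →
      ∀ r s : k, r ≠ 0 →
      ∀ (L : Type) [Field L] [Algebra k L] [Algebra (RatFunc k) L] [IsScalarTower k (RatFunc k) L],
        InExtension l k (RatFunc k) L
          (badSet l k (algebraMap k[X] (RatFunc k) (C r * X + C s))) →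
          Conclusion l k L (algebraMap k[X] (RatFunc k) (C r * X + C s))) ∧
    ∀ (l : ℕ) (k K : Type) [Field k] [Finite k] [Field K] [Algebra k K], l = 5 ∨ l = 7 →
      (6 : k) ≠ 0 → (l : k) ≠ 0 → IsCurveField k K → ∀ a b : K, HasPointOfOrder l a b →
        IsCurveMod l k a b := by
  classical
  refine ⟨?_, ?_, ?_⟩
  · intro l k K _ _ _ _ hl hl2 h6 hlk hK u hu M _ _ _ _ hM hcl L _ _ _ _ hL
    have : Fact l.Prime := ⟨hl⟩
    have hFF : FF.IsFF k K := ⟨hK.essFiniteType, hK.trdeg_eq_one⟩
    obtain ⟨hcf, θ, hθ, htop⟩ := hM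
    have hFFM : FF.IsFF k M := ⟨hcf.essFiniteType, hcf.trdeg_eq_one⟩
    have hu0 : u ≠ 0 := by
      rintro rfl
      exact hu IsSquare.zero
    have hns : ∀ s : K, u ≠ s ^ 2 := fun s h => hu ⟨s, by rw [h, sq]⟩
    have hrel := Pool.Agent.R427.AQ.nr2_of_class (l := l) h6 hlk hu0 hns hθ htop
      (Pool.Agent.TH958.T4.constDeg_eq_one hK.algClosed)
      (Pool.Agent.TH958.T4.constDeg_eq_one hcf.algClosed) hcf.algClosed hcl
    exact conclusion_of h6 hl hl2 hlk hu0 hL hrel
  · intro l k _ _ hl hl2 h6 hlk r s hr L _ _ _ _ hL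
    have : Fact l.Prime := ⟨hl⟩
    have hu0 : (algebraMap k[X] (RatFunc k) (C r * X + C s) : RatFunc k) ≠ 0 := by
      apply W309.RF.A_ne
      intro h
      have h1 := natDegree_linear (b := s) hr
      rw [h, natDegree_zero] at h1
      norm_num at h1
    exact conclusion_of h6 hl hl2 hlk hu0 hL (Pool.Agent.R427.AQ.nr2_base h6 hr s)
  · intro l k K _ _ _ _ hl h6 hlk hK a b hab
    have hFF : FF.IsFF k K := ⟨hK.essFiniteType, hK.trdeg_eq_one⟩
    have h2 : (2 : k) ≠ 0 := fun e => h6 (by linear_combination 3 * e)
    have h3 : (3 : k) ≠ 0 := fun e => h6 (by linear_combination 2 * e)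
    obtain ⟨hΔ, P, hP⟩ := hab
    rcases hl with rfl | rfl
    · have h5 : (5 : k) ≠ 0 := by exact_mod_cast hlk
      obtain ⟨h7, h8⟩ := Pool.Agent.R427.TW.of_five h2 h3 h5 hΔ P (by convert hP)
      exact isCurveMod_of hΔ h8 h7
        (Pool.Agent.R427.SV.node_five h2 h3 h5 hΔ P (by convert hP))
    · have h5 : (7 : k) ≠ 0 := by exact_mod_cast hlk
      obtain ⟨h7, h8, h9⟩ := Pool.Agent.R427.SV.of_seven h2 h3 h5 hΔ P (by convert hP)
      exact isCurveMod_of hΔ h8 h7 h9

end Pool.Agent.Results.MP_72e2e6_nt.UnitLValues
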